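import Pool.Agent.H28.Variety

namespace Pool.Agent.Results.MP_e7abc8_al.NotHopfian

open Pool.Agent.H28.Variety

/-- Over the field with two elements, some relatively free algebra of rank one is not Hopfian. -/
theorem result : ∃ (S : Set (Fr (ZMod 2) ℕ)) (A : Type) (_ : NonUnitalNonAssocRing A)
    (_ : Module (ZMod 2) A) (_ : IsScalarTower (ZMod 2) A A) (_ : SMulCommClass (ZMod 2) A A),
    IsFree S 1 A ∧ ∃ φ : A →ₙₐ[ZMod 2] A, Function.Surjective φ ∧ ¬ Function.Injective φ :=
  ⟨S, Q, inferInstance, inferInstance, inferInstance, inferInstance, isFree, φ, φ_surj, φ_not_inj⟩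

end Pool.Agent.Results.MP_e7abc8_al.NotHopfian
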