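import Pool.Agent.H28.Variety

namespace Pool.Agent.Results.MP_e7abc8_al.NotResFinite

open Pool.Agent.H28.Variety

/-- Over the field with two elements, some relatively free algebra of rank one has a nonzero
element lying in every two-sided ideal with finite quotient. -/
theorem result : ∃ (S : Set (Fr (ZMod 2) ℕ)) (A : Type) (_ : NonUnitalNonAssocRing A)
    (_ : Module (ZMod 2) A) (_ : IsScalarTower (ZMod 2) A A) (_ : SMulCommClass (ZMod 2) A A),
    IsFree S 1 A ∧ ∃ a : A, a ≠ 0 ∧ ∀ I : Submodule (ZMod 2) A,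
      (∀ x ∈ I, ∀ y, x * y ∈ I ∧ y * x ∈ I) → Finite (A ⧸ I) → a ∈ I :=
  ⟨S, Q, inferInstance, inferInstance, inferInstance, inferInstance, isFree, r (l x0) - x0,
    sub_ne_zero.2 rl, fun I hI _ => mem_all I hI⟩

end Pool.Agent.Results.MP_e7abc8_al.NotResFinite
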